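import Pool.Agent.Helper92.RECT.Goals3

/-!
# Packet RECT-STA: the start of the local process of a slab
-/

namespace Pool.Agent.Helper8.RECT

open Pool.Agent.Helper65.LinSpace Pool.Agent.Helper78.Mpc Pool.Agent.Helper28.Ram Finset
open Pool.Agent.Helper65.OH (Prm OneHead Conf Par InBox co GoodQ Fns)
open Pool.Agent.Helper28.OHS (cellN cs cn cd Rep)
open Pool.Agent.Helper92.RECT

/-! ### General facts -/

theorem cellN_congr (κ D : ℕ) (u v : ℕ → ℕ) (h : ∀ k < D, u k = v k) :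
    cellN κ u D = cellN κ v D := by
  unfold cellN
  induction D with
  | zero => rfl
  | succ D ih =>
    rw [nrec_succ, nrec_succ, ih fun k hk => h k (by omega), h D (by omega)]

theorem num_lt_pow {S : ℕ} {u : List Bool} (h : u.length ≤ S) : num u < 2 ^ (S + 1) := by
  have h1 := capN_lt S (num u)
  rwa [capN_num h] at h1

theorem ifz_pos' {c : ℕ} (h : c ≠ 0) (x y : ℕ) : ifz c x y = y := by
  unfold ifz
  rw [if_neg h]

theorem ifz_zero' (x y : ℕ) : ifz 0 x y = x := by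
  unfold ifz
  rw [if_pos rfl]

theorem dm {a b x : ℕ} (h : a < b) : (a + b * x) % b = a := by
  rw [Nat.add_mul_mod_self_left, Nat.mod_eq_of_lt h]

theorem dd {a b x : ℕ} (h : a < b) : (a + b * x) / b = x := by
  rw [Nat.add_mul_div_left _ _ (by omega), Nat.div_eq_of_lt h, zero_add]

/-! ### The code of a state -/

theorem cod_eq (s : Sp) (u md i j t p : ℕ) : s.cod u md i j t p =
    u + 2 ^ (s.m.S + 1) * (md + 8 * (i % 2 ^ s.ν + 2 ^ s.ν * (j % 2 ^ s.ν + 2 ^ s.ν *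
      (t % 2 ^ s.te + 2 ^ s.te * p)))) := by
  unfold Sp.cod Sp.θ
  have h4 : (2 : ℕ) ^ (2 * s.ν) = 2 ^ s.ν * 2 ^ s.ν := by rw [two_mul, pow_add]
  rw [pow_add 2 (s.m.S + 1), pow_add 2 (3 + 2 * s.ν), pow_add 2 3, h4]
  ring

theorem ce_eq (s : Sp) (q : ℕ) : s.ce q =
    q / 2 ^ (s.m.S + 1) / 8 / 2 ^ s.ν / 2 ^ s.ν / 2 ^ s.te := by
  unfold Sp.ce Sp.θ
  have h4 : (2 : ℕ) ^ (2 * s.ν) = 2 ^ s.ν * 2 ^ s.ν := by rw [two_mul, pow_add]
  have h5 : (2 : ℕ) ^ (s.m.S + 1 + (3 + 2 * s.ν + s.te)) =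
      2 ^ (s.m.S + 1) * 8 * 2 ^ s.ν * 2 ^ s.ν * 2 ^ s.te := by
    rw [pow_add 2 (s.m.S + 1), pow_add 2 (3 + 2 * s.ν), pow_add 2 3, h4]
    ring
  rw [h5, ← Nat.div_div_eq_div_mul, ← Nat.div_div_eq_div_mul, ← Nat.div_div_eq_div_mul,
    ← Nat.div_div_eq_div_mul]

section

variable (s : Sp) {u md i j t p : ℕ}

theorem wq_cod (hu : u < 2 ^ (s.m.S + 1)) : s.wq (s.cod u md i j t p) = u := by
  unfold Sp.wq
  rw [cod_eq, dm hu]

theorem md_cod (hu : u < 2 ^ (s.m.S + 1)) (hm : md < 8) : s.md (s.cod u md i j t p) = md := by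
  unfold Sp.md
  rw [cod_eq, dd hu, dm hm]

theorem ix_cod (hu : u < 2 ^ (s.m.S + 1)) (hm : md < 8) :
    s.ix (s.cod u md i j t p) = i % 2 ^ s.ν := by
  unfold Sp.ix
  rw [cod_eq, dd hu, dd hm, dm (Nat.mod_lt _ (by positivity))]

theorem jx_cod (hu : u < 2 ^ (s.m.S + 1)) (hm : md < 8) :
    s.jx (s.cod u md i j t p) = j % 2 ^ s.ν := by
  unfold Sp.jx
  rw [cod_eq, dd hu, dd hm, dd (Nat.mod_lt _ (by positivity)), dm (Nat.mod_lt _ (by positivity))]

theorem tx_cod (hu : u < 2 ^ (s.m.S + 1)) (hm : md < 8) :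
    s.tx (s.cod u md i j t p) = t % 2 ^ s.te := by
  unfold Sp.tx
  rw [cod_eq, dd hu, dd hm, dd (Nat.mod_lt _ (by positivity)), dd (Nat.mod_lt _ (by positivity)),
    dm (Nat.mod_lt _ (by positivity))]

theorem ce_cod (hu : u < 2 ^ (s.m.S + 1)) (hm : md < 8) : s.ce (s.cod u md i j t p) = p := by
  rw [ce_eq, cod_eq, dd hu, dd hm, dd (Nat.mod_lt _ (by positivity)),
    dd (Nat.mod_lt _ (by positivity)), dd (Nat.mod_lt _ (by positivity))]

theorem bq_cod (hu : u < 2 ^ (s.m.S + 1)) (hm : md < 8) :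
    s.bq (s.cod u md i j t p) = u + 2 ^ (s.m.S + 1) * p := by
  unfold Sp.bq
  rw [wq_cod s hu, ce_cod s hu hm]

theorem cod_lt (hu : u < 2 ^ (s.m.S + 1)) (hm : md < 8) (hp : p < 2 ^ (s.m.κ * s.m.D)) :
    s.cod u md i j t p < 2 ^ (s.θ + s.m.κ * s.m.D) := by
  have h := ce_cod s (i := i) (j := j) (t := t) (p := p) hu hm
  unfold Sp.ce at h
  rw [← h, Nat.div_lt_iff_lt_mul (by positivity), mul_comm, ← pow_add] at hp
  exact hp

end

/-- The code of a state codes a configuration of the local process. -/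
theorem cd_cod {D : ℕ} (s : Sp) (P : ℤ) (md i j t p : ℕ) (C : Conf D)
    (hl : C.q.length ≤ s.m.S) (h1 : md ≠ 0) (h3 : md ≤ 3) (hi : i < 2 ^ s.ν) (hj : j < 2 ^ s.ν)
    (ht : t < 2 ^ s.te) (htn : t ≤ s.n) (hp : p < 2 ^ (s.m.κ * s.m.D))
    (hc : ∀ k : Fin D, ((dig (2 ^ s.m.κ) p k : ℕ) : ℤ) = C.h k + 2 ^ (s.m.κ - 1))
    (hpos : md = 1 → 0 ≤ fst C.h ∧ fst C.h < s.W ∧ InBox s.G.κ (shf P C.h)) :
    Cd s P ⟨md, i, j, t, C⟩ (s.cod (num C.q) md i j t p) := by
  have hu : num C.q < 2 ^ (s.m.S + 1) := num_lt_pow hl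
  have hm : md < 8 := by omega
  refine ⟨cod_lt s hu hm hp, h1, h3, md_cod s hu hm, ?_, ?_, ?_, htn, ?_, hpos⟩
  · rw [ix_cod s hu hm, Nat.mod_eq_of_lt hi]
  · rw [jx_cod s hu hm, Nat.mod_eq_of_lt hj]
  · rw [tx_cod s hu hm, Nat.mod_eq_of_lt ht]
  · rw [bq_cod s hu hm]
    refine ⟨?_, dm hu, hl, ?_⟩
    · unfold Prm.sg
      rw [pow_add 2 (s.m.S + 1)]
      have h2 : 2 ^ (s.m.S + 1) * (p + 1) ≤ 2 ^ (s.m.S + 1) * 2 ^ (s.m.κ * s.m.D) :=
        Nat.mul_le_mul_left _ hp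
      have h4 : 2 ^ (s.m.S + 1) * (p + 1) = 2 ^ (s.m.S + 1) * p + 2 ^ (s.m.S + 1) := by ring
      omega
    · intro k
      unfold Prm.cq
      rw [dd hu]
      exact hc k

/-! ### Global and local coordinates -/

theorem oAB (s : Sp) {P : ℤ} (h : (s.Ph : ℤ) = P + 2 ^ s.π) (k : ℕ) :
    (s.oA k : ℤ) - s.oB k = 2 ^ (s.m.κ - 1) - 2 ^ (s.G.κ - 1) - (if k = 0 then P else 0) := by
  unfold Sp.oA Sp.oB ifz
  split_ifs with hk
  · push_cast
    linarith
  · push_cast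
    ring

theorem lv_iff (s : Sp) (g k : ℕ) : s.lv g k ≠ 0 ↔ s.oB k ≤ g + s.oA k ∧
    s.lc g k < 2 ^ s.m.κ ∧
    (k = 0 → 2 ^ (s.m.κ - 1) ≤ s.lc g k ∧ s.lc g k < 2 ^ (s.m.κ - 1) + s.W) := by
  unfold Sp.lv le01 lt01 ifz
  rcases Nat.eq_zero_or_pos k with h3 | h3
  · subst h3
    by_cases h1 : s.oB 0 ≤ g + s.oA 0 <;> by_cases h2 : s.lc g 0 < 2 ^ s.m.κ <;>
      by_cases h4 : 2 ^ (s.m.κ - 1) ≤ s.lc g 0 <;>
      by_cases h5 : s.lc g 0 < 2 ^ (s.m.κ - 1) + s.W <;>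
      simp [h1, h2, h4, h5]
  · have h3' : k ≠ 0 := h3.ne'
    by_cases h1 : s.oB k ≤ g + s.oA k <;> by_cases h2 : s.lc g k < 2 ^ s.m.κ <;>
      simp [h1, h2, h3']

theorem lV_iff (s : Sp) (p : ℕ) :
    s.lV p ≠ 0 ↔ ∀ k < s.m.D, s.lv (dig (2 ^ s.G.κ) p k) k ≠ 0 := by
  have h1 : s.lV p ≠ 0 ↔ ∑ k ∈ range s.m.D, (1 - s.lv (dig (2 ^ s.G.κ) p k) k) = 0 := by
    unfold Sp.lV eq01
    split_ifs with h
    · simp [h]
    · simp [h]
  rw [h1, sum_eq_zero_iff]
  constructor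
  · intro h k hk
    have := h k (mem_range.2 hk)
    omega
  · intro h k hk
    have := h k (mem_range.1 hk)
    omega

/-- The test of a coordinate, with integers. -/
theorem lv_int (s : Sp) {P : ℤ} (h : (s.Ph : ℤ) = P + 2 ^ s.π) (g k : ℕ) (z : ℤ)
    (hg : (g : ℤ) = z + 2 ^ (s.G.κ - 1)) :
    s.lv g k ≠ 0 ↔ 0 ≤ z - (if k = 0 then P else 0) + 2 ^ (s.m.κ - 1) ∧
      z - (if k = 0 then P else 0) + 2 ^ (s.m.κ - 1) < 2 ^ s.m.κ ∧
      (k = 0 → 0 ≤ z - P ∧ z - P < s.W) := by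
  have h1 := oAB s h k
  rw [lv_iff]
  have e' : s.oB k ≤ g + s.oA k ↔ (s.oB k : ℤ) ≤ g + s.oA k := by
    zify
  have e : s.oB k ≤ g + s.oA k ↔ 0 ≤ z - (if k = 0 then P else 0) + 2 ^ (s.m.κ - 1) := by
    rw [e']
    constructor <;> intro h2 <;> linarith
  rw [e]
  refine and_congr_right fun h2 => ?_
  have e2 : ((s.lc g k : ℕ) : ℤ) = z - (if k = 0 then P else 0) + 2 ^ (s.m.κ - 1) := by
    unfold Sp.lc
    rw [Nat.cast_sub (e.2 h2)]
    push_cast
    linarith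
  have e3 : s.lc g k < 2 ^ s.m.κ ↔
      z - (if k = 0 then P else 0) + 2 ^ (s.m.κ - 1) < 2 ^ s.m.κ := by
    rw [← e2]
    exact_mod_cast Iff.rfl
  rw [e3]
  refine and_congr_right fun h3 => ?_
  constructor
  · intro h4 hk
    obtain ⟨h5, h6⟩ := h4 hk
    rw [if_pos hk] at e2
    have h7 : ((2 ^ (s.m.κ - 1) : ℕ) : ℤ) ≤ (s.lc g k : ℕ) := by exact_mod_cast h5
    have h8 : ((s.lc g k : ℕ) : ℤ) < ((2 ^ (s.m.κ - 1) + s.W : ℕ) : ℤ) := by exact_mod_cast h6
    push_cast at h7 h8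
    constructor <;> linarith
  · intro h4 hk
    obtain ⟨h5, h6⟩ := h4 hk
    rw [if_pos hk] at e2
    constructor
    · zify
      linarith
    · zify
      linarith

/-- The local coordinate, with integers. -/
theorem lc_int (s : Sp) {P : ℤ} (h : (s.Ph : ℤ) = P + 2 ^ s.π) (g k : ℕ) (z : ℤ)
    (hg : (g : ℤ) = z + 2 ^ (s.G.κ - 1)) (hl : s.lv g k ≠ 0) :
    ((s.lc g k : ℕ) : ℤ) = z - (if k = 0 then P else 0) + 2 ^ (s.m.κ - 1) ∧
      s.lc g k < 2 ^ s.m.κ := by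
  have h1 := oAB s h k
  obtain ⟨h2, h3, h4⟩ := (lv_iff s g k).1 hl
  refine ⟨?_, h3⟩
  unfold Sp.lc
  rw [Nat.cast_sub h2]
  push_cast
  linarith

/-- The global coordinate of a local cell. -/
theorem gc_int (s : Sp) {P : ℤ} (h : (s.Ph : ℤ) = P + 2 ^ s.π) (u k : ℕ) (z : ℤ)
    (hu : (u : ℤ) = z + 2 ^ (s.m.κ - 1))
    (h0 : 0 ≤ z + (if k = 0 then P else 0) + 2 ^ (s.G.κ - 1)) :
    ((s.gc u k : ℕ) : ℤ) = z + (if k = 0 then P else 0) + 2 ^ (s.G.κ - 1) := by
  have h1 := oAB s h k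
  have h2 : s.oA k ≤ u + s.oB k := by
    zify
    linarith
  unfold Sp.gc
  rw [Nat.cast_sub h2]
  push_cast
  linarith

theorem fst_eq {D : ℕ} (h : 0 < D) (p : Fin D → ℤ) : fst p = p ⟨0, h⟩ := dif_pos h

theorem shf_apply {D : ℕ} (z : ℤ) (p : Fin D → ℤ) (k : Fin D) :
    shf z p k = p k + (if k.val = 0 then z else 0) := by
  unfold shf
  split_ifs <;> simp

theorem shf_neg_shf {D : ℕ} (z : ℤ) (p : Fin D → ℤ) : shf z (shf (-z) p) = p := by
  funext k
  rw [shf_apply, shf_apply]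
  split_ifs <;> ring

/-- `co` as an integer. -/
theorem co_int {D κ : ℕ} {p : Fin D → ℤ} (h : InBox κ p) (k : Fin D) :
    ((co κ p k : ℕ) : ℤ) = p k + 2 ^ (κ - 1) := by
  unfold co
  rw [dif_pos k.2, Int.toNat_of_nonneg (h k).1]

theorem co_lt' {D κ : ℕ} {p : Fin D → ℤ} (h : InBox κ p) {k : ℕ} (hk : k < D) :
    co κ p k < 2 ^ κ := by
  have h1 := co_int h ⟨k, hk⟩
  have h2 := (h ⟨k, hk⟩).2
  rw [← h1] at h2
  exact_mod_cast h2

/-- The global coordinates of a cell of the slab. -/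
theorem dig_gC {D : ℕ} (s : Sp) {P : ℤ} (hD : s.m.D = D) (h : (s.Ph : ℤ) = P + 2 ^ s.π)
    (p : Fin D → ℤ) (hp : InBox s.m.κ p) (hg : InBox s.G.κ (shf P p)) :
    ∀ k < D, dig (2 ^ s.G.κ) (s.gC (cd s.m p)) k = co s.G.κ (shf P p) k := by
  have key : ∀ k < D, s.gc (dig (2 ^ s.m.κ) (cd s.m p) k) k = co s.G.κ (shf P p) k := by
    intro k hk
    have e1 : dig (2 ^ s.m.κ) (cd s.m p) k = co s.m.κ p k :=
      dig_tab (fun i hi => co_lt' hp hi) hk
    have e2 := co_int hp ⟨k, hk⟩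
    have e3 := co_int hg ⟨k, hk⟩
    have e4 : shf P p ⟨k, hk⟩ = p ⟨k, hk⟩ + (if k = 0 then P else 0) := shf_apply _ _ _
    have e5 := (hg ⟨k, hk⟩).1
    rw [e4] at e3 e5
    rw [e1]
    have e6 := gc_int s h (co s.m.κ p k) k (p ⟨k, hk⟩) e2 e5
    have e7 : ((s.gc (co s.m.κ p k) k : ℕ) : ℤ) = ((co s.G.κ (shf P p) k : ℕ) : ℤ) :=
      e6.trans e3.symm
    exact_mod_cast e7
  intro k hk
  unfold Sp.gC
  rw [hD, dig_tab (fun i hi => Nat.mod_lt _ (by positivity)) hk, key k hk,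
    Nat.mod_eq_of_lt (co_lt' hg hk)]

/-! ### The start -/

section

variable {D : ℕ} {A : OneHead D} {w y : List Bool} {s : Sp} {P P' : ℤ}

/-- The digits of the position of the head at the start. -/
theorem hp_dig (R : Rdy A w y s P P') {C₀ : Conf D} (hC : Rep s.G s.e s.c C₀) (k : Fin D) :
    ((dig (2 ^ s.G.κ) s.hp k : ℕ) : ℤ) = C₀.h k + 2 ^ (s.G.κ - 1) := by
  have h := hC.good.cq k
  unfold Prm.cq at h
  rw [R.S] at h
  exact h

theorem mD (R : Rdy A w y s P P') : s.m.D = D := by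
  obtain ⟨_, _, _, _, h⟩ := R.par
  exact h.h_D

theorem GD (R : Rdy A w y s P P') : s.G.D = D := by
  obtain ⟨_, _, _, _, h⟩ := R.parG
  exact h.h_D

theorem lft_iff (R : Rdy A w y s P P') {C₀ : Conf D} (hC : Rep s.G s.e s.c C₀) :
    s.lft ≠ 0 ↔ fst C₀.h < P := by
  have h1 := hp_dig R hC ⟨0, R.pos⟩
  have h1' : ((dig (2 ^ s.G.κ) s.hp 0 : ℕ) : ℤ) = C₀.h ⟨0, R.pos⟩ + 2 ^ (s.G.κ - 1) := h1
  have h2 := R.Ph
  rw [fst_eq R.pos]
  have h3 : s.lft ≠ 0 ↔ dig (2 ^ s.G.κ) s.hp 0 + 2 ^ s.π < s.Ph + 2 ^ (s.G.κ - 1) := by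
    unfold Sp.lft lt01
    split_ifs with h <;> simp [h]
  rw [h3]
  zify
  constructor <;> intro h4 <;> linarith

theorem rgt_iff (R : Rdy A w y s P P') {C₀ : Conf D} (hC : Rep s.G s.e s.c C₀) :
    s.rgt ≠ 0 ↔ P' ≤ fst C₀.h := by
  have h1 := hp_dig R hC ⟨0, R.pos⟩
  have h1' : ((dig (2 ^ s.G.κ) s.hp 0 : ℕ) : ℤ) = C₀.h ⟨0, R.pos⟩ + 2 ^ (s.G.κ - 1) := h1
  have h2 := R.Ph
  have h5 := R.W
  rw [fst_eq R.pos]
  have h3 : s.rgt ≠ 0 ↔ s.Ph + 2 ^ (s.G.κ - 1) + s.W ≤ dig (2 ^ s.G.κ) s.hp 0 + 2 ^ s.π := by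
    unfold Sp.rgt le01
    split_ifs with h <;> simp [h]
  rw [h3]
  zify
  constructor <;> intro h4 <;> linarith

theorem c0_lt (R : Rdy A w y s P P') : s.c0 < 2 ^ (s.m.κ * s.m.D) := by
  unfold Sp.c0
  rw [pow_mul]
  refine tab_lt fun i _ => ?_
  have := R.κ
  exact Nat.pow_lt_pow_right (by norm_num) (by omega)

theorem c0_dig (R : Rdy A w y s P P') (k : Fin D) :
    dig (2 ^ s.m.κ) s.c0 k = 2 ^ (s.m.κ - 1) := by
  unfold Sp.c0
  rw [mD R]
  refine dig_tab (fun i _ => ?_) k.2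
  have := R.κ
  exact Nat.pow_lt_pow_right (by norm_num) (by omega)

/-- The start outside of the slab. -/
theorem cd_out (R : Rdy A w y s P P') (md : ℕ) (h1 : md ≠ 0) (h2 : md ≠ 1) (h3 : md ≤ 3)
    (M : (Fin D → ℤ) → List Bool) :
    Cd s P ⟨md, 0, 0, 0, ⟨[], fun _ => 0, M⟩⟩ (s.cod 1 md 0 0 0 s.c0) := by
  have h := cd_cod s P md 0 0 0 s.c0 (⟨[], fun _ => 0, M⟩ : Conf D) (by simp) h1 h3
    (by positivity) (by positivity) (by positivity) (Nat.zero_le _) (c0_lt R) ?_ ?_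
  · exact h
  · intro k
    rw [c0_dig R]
    push_cast
    simp
  · intro h4
    exact absurd h4 h2

/-- `lV hp`. -/
theorem lV_hp (R : Rdy A w y s P P') {C₀ : Conf D} (hC : Rep s.G s.e s.c C₀) :
    s.lV s.hp ≠ 0 ↔ ∀ k : Fin D,
      0 ≤ C₀.h k - (if k.val = 0 then P else 0) + 2 ^ (s.m.κ - 1) ∧
      C₀.h k - (if k.val = 0 then P else 0) + 2 ^ (s.m.κ - 1) < 2 ^ s.m.κ ∧
      (k.val = 0 → 0 ≤ C₀.h k - P ∧ C₀.h k - P < s.W) := by
  rw [lV_iff, mD R]
  constructor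
  · intro h k
    exact (lv_int s R.Ph _ k.val (C₀.h k) (hp_dig R hC k)).1 (h k.val k.2)
  · intro h k hk
    exact (lv_int s R.Ph _ k (C₀.h ⟨k, hk⟩) (hp_dig R hC ⟨k, hk⟩)).2 (h ⟨k, hk⟩)

theorem inBox_hp (R : Rdy A w y s P P') {C₀ : Conf D} (hC : Rep s.G s.e s.c C₀) :
    InBox s.G.κ C₀.h := by
  intro k
  have h1 := hp_dig R hC k
  have h2 : dig (2 ^ s.G.κ) s.hp k < 2 ^ s.G.κ := dig_lt (by positivity) _ _
  rw [← h1]
  constructor
  · positivity
  · exact_mod_cast h2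

end

/-- Packet RECT-STA. -/
theorem sta : STA_stmt where
  snd := by
    intro D A w y s P P' R C₀ hC
    unfold Sp.q0
    by_cases h1 : fst C₀.h < P
    · right
      rw [ifz_pos' ((lft_iff R hC).2 h1)]
      unfold lcf
      rw [if_neg (fun h => by linarith [h.1]), if_pos h1]
      exact cd_out R 2 (by norm_num) (by norm_num) (by norm_num) _
    · have e1 : s.lft = 0 := by
        by_contra h
        exact h1 ((lft_iff R hC).1 h)
      rw [e1, ifz_zero']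
      by_cases h2 : P' ≤ fst C₀.h
      · right
        rw [ifz_pos' ((rgt_iff R hC).2 h2)]
        unfold lcf
        rw [if_neg (fun h => by linarith [h.2]), if_neg h1]
        exact cd_out R 3 (by norm_num) (by norm_num) (by norm_num) _
      · have e2 : s.rgt = 0 := by
          by_contra h
          exact h2 ((rgt_iff R hC).1 h)
        rw [e2, ifz_zero']
        by_cases h3 : s.lV s.hp = 0
        · left
          rw [h3, ifz_zero']
          unfold Sp.fl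
          exact md_cod s (Nat.one_lt_two_pow (by omega)) (by norm_num)
        · right
          rw [ifz_pos' h3]
          have h4 := (lV_hp R hC).1 h3
          have h5 : cs s.G s.c % 2 ^ (s.m.S + 1) = num C₀.q := by
            have := hC.good.wq
            unfold Prm.wq at this
            rwa [R.S] at this
          have h6 : lcf P P' 0 0 0 C₀ = ⟨1, 0, 0, 0, ⟨C₀.q, shf (-P) C₀.h, lM P P' C₀.M⟩⟩ := by
            unfold lcf
            rw [if_pos ⟨by linarith, by linarith⟩]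
          have hD := mD R
          have h7 : ∀ k < D, s.lc (dig (2 ^ s.G.κ) s.hp k) k < 2 ^ s.m.κ ∧
              ((s.lc (dig (2 ^ s.G.κ) s.hp k) k : ℕ) : ℤ) =
                (if h : k < D then C₀.h ⟨k, h⟩ else 0) - (if k = 0 then P else 0) +
                  2 ^ (s.m.κ - 1) := by
            intro k hk
            have h8 := (lV_iff s s.hp).1 h3 k (by rw [hD]; exact hk)
            have h9 := lc_int s R.Ph _ k (C₀.h ⟨k, hk⟩) (hp_dig R hC ⟨k, hk⟩) h8
            rw [dif_pos hk]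
            exact ⟨h9.2, h9.1⟩
          have h10 : s.lC s.hp = tab (2 ^ s.m.κ) D fun k => s.lc (dig (2 ^ s.G.κ) s.hp k) k := by
            unfold Sp.lC
            rw [hD]
            exact tab_congr fun k hk => Nat.mod_eq_of_lt (h7 k hk).1
          rw [h6, h5]
          refine cd_cod s P 1 0 0 0 (s.lC s.hp)
            (⟨C₀.q, shf (-P) C₀.h, lM P P' C₀.M⟩ : Conf D) ?_ (by norm_num) (by norm_num)
            (by positivity) (by positivity) (by positivity) (Nat.zero_le _) ?_ ?_ ?_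
          · have := hC.good.len
            rwa [R.S] at this
          · rw [h10, pow_mul, hD]
            exact tab_lt fun k hk => (h7 k hk).1
          · intro k
            have e3 : shf (-P) C₀.h k = C₀.h k + (if k.val = 0 then -P else 0) := shf_apply _ _ _
            rw [h10, dig_tab (fun i hi => (h7 i hi).1) k.2, (h7 k.val k.2).2, dif_pos k.2]
            simp only [Fin.eta]
            rw [e3]
            split_ifs <;> ring
          · intro _
            have e0 : fst (shf (-P) C₀.h) = fst C₀.h - P := by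
              rw [fst_eq R.pos, fst_eq R.pos, shf_apply]
              simp [sub_eq_add_neg]
            refine ⟨?_, ?_, ?_⟩
            · show 0 ≤ fst (shf (-P) C₀.h)
              rw [e0]
              linarith
            · show fst (shf (-P) C₀.h) < s.W
              rw [e0, R.W]
              linarith
            · show InBox s.G.κ (shf P (shf (-P) C₀.h))
              rw [shf_neg_shf]
              exact inBox_hp R hC
  cts := by
    intro D A w y s P P' R C₀ hC p hp h0 h1 hg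
    have hD := mD R
    have e1 : (lcf P P' 0 0 0 C₀).C.M = lM P P' C₀.M := by
      unfold lcf
      split_ifs <;> rfl
    have e2 : lM P P' C₀.M p = C₀.M (shf P p) := by
      unfold lM
      rw [if_pos ⟨h0, by rw [← R.W]; exact h1⟩]
    rw [e1, e2]
    have h2 := hC.ct (shf P p) hg
    rw [GD R, R.S] at h2
    rw [← h2]
    unfold Sp.M0 Sp.nm
    rw [hD, cellN_congr s.G.κ D _ _ (dig_gC s hD R.Ph p hp hg)]
  cmp := by
    intro D A w y s P P' R C₀ hC hb
    unfold Sp.q0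
    by_cases h1 : fst C₀.h < P
    · rw [ifz_pos' ((lft_iff R hC).2 h1),
        md_cod s (Nat.one_lt_two_pow (by omega)) (by norm_num)]
      norm_num
    · have e1 : s.lft = 0 := by
        by_contra h
        exact h1 ((lft_iff R hC).1 h)
      rw [e1, ifz_zero']
      by_cases h2 : P' ≤ fst C₀.h
      · rw [ifz_pos' ((rgt_iff R hC).2 h2),
          md_cod s (Nat.one_lt_two_pow (by omega)) (by norm_num)]
        norm_num
      · have e2 : s.rgt = 0 := by
          by_contra h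
          exact h2 ((rgt_iff R hC).1 h)
        rw [e2, ifz_zero']
        have hκ := R.κ
        have hW := R.W
        have hWle := R.Wle
        have p1 : (2 : ℤ) ^ s.m.κ = 2 * 2 ^ (s.m.κ - 1) := by
          rw [← pow_succ']
          congr 1
          omega
        have p2 : (2 : ℤ) ^ (s.m.κ - 1) = 2 * 2 ^ (s.m.κ - 2) := by
          rw [← pow_succ']
          congr 1
          omega
        have p3 : (0 : ℤ) < 2 ^ (s.m.κ - 2) := by positivity
        have hWle' : (s.W : ℤ) ≤ 2 ^ (s.m.κ - 2) := by exact_mod_cast hWle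
        have h3 : s.lV s.hp ≠ 0 := by
          rw [lV_hp R hC]
          intro k
          by_cases hk : k.val = 0
          · have e3 : C₀.h k = fst C₀.h := by
              rw [fst_eq R.pos]
              congr 1
              exact Fin.ext hk
            rw [if_pos hk, e3]
            refine ⟨by linarith, by linarith, fun _ => ⟨by linarith, by linarith⟩⟩
          · obtain ⟨h4, h5⟩ := hb k hk
            rw [if_neg hk]
            refine ⟨by linarith, by linarith, fun h => absurd h hk⟩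
        rw [ifz_pos' h3, md_cod s (Nat.mod_lt _ (by positivity)) (by norm_num)]
        norm_num

end Pool.Agent.Helper8.RECT
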